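import Mathlib

/-!
# K-stability of products: data and definitions
-/

namespace Pool.Agent.N522.YK

open Filter Asymptotics

/-- `f(k) = k^d (x₀ + x₁/k) + O(k^{d-2})` -/
def Exp2 (f : ℕ → ℝ) (d : ℕ) (x₀ x₁ : ℝ) : Prop :=
  (fun k : ℕ => f k - (k : ℝ) ^ d * (x₀ + x₁ / k)) =O[atTop] fun k : ℕ => (k : ℝ) ^ ((d : ℤ) - 2)

/-- `f(k) = x₀ k^d + O(k^{d-1})` -/
def Exp1 (f : ℕ → ℝ) (d : ℕ) (x₀ : ℝ) : Prop :=
  (fun k : ℕ => f k - (k : ℝ) ^ d * x₀) =O[atTop] fun k : ℕ => (k : ℝ) ^ ((d : ℤ) - 1)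

/-- Polarized manifolds and test configurations. -/
structure Theory where
  /-- polarized manifolds `(M, L)` -/
  Pol : Type
  /-- test configurations -/
  TC : Pol → Type
  /-- dimension -/
  dim : Pol → ℕ
  /-- `dim H^0(M, L^k)` -/
  h0 : Pol → ℕ → ℝ
  /-- `c_1(L)` contains a cscK metric -/
  Csck : Pol → Prop
  /-- `M` has no non-zero holomorphic vector fields -/
  NoFields : Pol → Prop
  /-- the exponent `r` of a test configuration -/
  r : ∀ {X : Pol}, TC X → ℕ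
  /-- `dim H^0(M_0, L_0^k)` -/
  d : ∀ {X : Pol}, TC X → ℕ → ℝ
  /-- `Tr(A_k)` -/
  t : ∀ {X : Pol}, TC X → ℕ → ℝ
  /-- `Tr(A_k²)` -/
  q : ∀ {X : Pol}, TC X → ℕ → ℝ
  /-- `(M₁ × M₂, L₁ ⊠ L₂)` -/
  prod : Pol → Pol → Pol
  /-- the product of a test configuration of the first factor with the second factor -/
  left : ∀ (X Y : Pol), TC X → TC (prod X Y)

variable {T : Theory}

/-- The numbers `a₀, a₁, b₀, b₁, c₀` of a test configuration. -/
structure Numbers {X : T.Pol} (χ : T.TC X) (a₀ a₁ b₀ b₁ c₀ : ℝ) : Prop where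
  d : Exp2 (T.d χ) (T.dim X) a₀ a₁
  t : Exp2 (T.t χ) (T.dim X + 1) b₀ b₁
  q : Exp1 (T.q χ) (T.dim X + 2) c₀

/-- the Futaki invariant -/
noncomputable def fut (a₀ a₁ b₀ b₁ : ℝ) : ℝ := (a₁ * b₀ - a₀ * b₁) / a₀ ^ 2

/-- the square of the norm, with `r^{n+2}` in the denominator -/
noncomputable def normSq (r n : ℕ) (a₀ b₀ c₀ : ℝ) : ℝ := (c₀ - b₀ ^ 2 / a₀) / (r : ℝ) ^ (n + 2)

/-- K-stability: `Fut(χ) > 0` for all test configurations with `‖χ‖ > 0` -/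
def KStable (T : Theory) (X : T.Pol) : Prop :=
  ∀ (χ : T.TC X) (a₀ a₁ b₀ b₁ c₀ : ℝ), Numbers χ a₀ a₁ b₀ b₁ c₀ →
    0 < normSq (T.r χ) (T.dim X) a₀ b₀ c₀ → 0 < fut a₀ a₁ b₀ b₁

/-- Q1 for a polarized manifold -/
def Q1 (T : Theory) (X : T.Pol) : Prop := T.NoFields X → (T.Csck X ↔ KStable T X)

/-- Sections of a product test configuration: `H^0(M_0 × Y, (L_0 ⊠ M^r)^k)` is
`H^0(M_0, L_0^k) ⊗ H^0(Y, M^{rk})`, with the action on the first factor. -/
structure ProductSections (T : Theory) (X Y : T.Pol) : Prop where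
  dim : T.dim (T.prod X Y) = T.dim X + T.dim Y
  r : ∀ χ : T.TC X, T.r (T.left X Y χ) = T.r χ
  d : ∀ (χ : T.TC X) (k : ℕ), T.d (T.left X Y χ) k = T.d χ k * T.h0 Y (T.r χ * k)
  t : ∀ (χ : T.TC X) (k : ℕ), T.t (T.left X Y χ) k = T.t χ k * T.h0 Y (T.r χ * k)
  q : ∀ (χ : T.TC X) (k : ℕ), T.q (T.left X Y χ) k = T.q χ k * T.h0 Y (T.r χ * k)

/-- Known facts.

* `hilbert`: `dim H^0(Y, M^k) = α₀ k^m + α₁ k^{m-1} + O(k^{m-2})` with `α₀ > 0`; `r_pos`: `r ≥ 1`;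
* `a_pos`: the leading coefficient `a₀` of a test configuration is positive;
* `prod`: sections of products; `swap`: the same with the factors exchanged;
* `csck`: products of cscK metrics; `fields`: vector fields on the factors are vector fields on the
  product; `stoppa`: Stoppa's theorem. -/
structure Facts (T : Theory) : Prop where
  hilbert : ∀ Y : T.Pol, ∃ α₀ α₁ : ℝ, 0 < α₀ ∧ Exp2 (T.h0 Y) (T.dim Y) α₀ α₁
  r_pos : ∀ (X : T.Pol) (χ : T.TC X), 0 < T.r χ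
  a_pos : ∀ (X : T.Pol) (χ : T.TC X) (a₀ a₁ : ℝ), Exp2 (T.d χ) (T.dim X) a₀ a₁ → 0 < a₀
  prod : ∀ X Y, ProductSections T X Y
  swap : ∀ X Y, KStable T (T.prod X Y) → KStable T (T.prod Y X)
  csck : ∀ X Y, T.Csck X → T.Csck Y → T.Csck (T.prod X Y)
  fields : ∀ X Y, T.NoFields (T.prod X Y) → T.NoFields X ∧ T.NoFields Y
  stoppa : ∀ X, T.NoFields X → T.Csck X → KStable T X

/-- The smallest class of polarized manifolds containing those in `S` and closed under products. -/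
inductive Gen (T : Theory) (S : T.Pol → Prop) : T.Pol → Prop
  | base (X : T.Pol) : S X → Gen T S X
  | prod (X Y : T.Pol) : Gen T S X → Gen T S Y → Gen T S (T.prod X Y)

end Pool.Agent.N522.YK
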